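import Pool.Agent.W_5dd92e_h6.Lift
import Pool.Agent.W_5dd92e_h55.Final

set_option autoImplicit false

/-!
# Absorption of vertex weights in regular graphs, and the case of orderable targets
-/

namespace Pool.Agent.W_5dd92e_h6

open Finset Filter Topology
open scoped Classical

universe u

variable {V : Type u} [Fintype V]

theorem mul_symm (y : V → ℝ) (a b : V) : y a * y b = y b * y a := mul_comm _ _

/-- the product over the edges of the product over the two ends -/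
theorem prod_ends (G : SimpleGraph V) (d : ℕ) (hreg : G.IsRegularOfDegree d) (y : V → ℝ) :
    ∏ e ∈ G.edgeFinset, Sym2.lift ⟨fun a b => y a * y b, mul_symm y⟩ e = ∏ v, y v ^ d := by
  have h1 : ∀ e ∈ G.edgeFinset, Sym2.lift ⟨fun a b => y a * y b, mul_symm y⟩ e =
      ∏ v, if v ∈ e then y v else 1 := by
    intro e he
    induction e using Sym2.ind with
    | _ a b =>
      rw [SimpleGraph.mem_edgeFinset, SimpleGraph.mem_edgeSet] at he
      have hab : a ≠ b := G.ne_of_adj he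
      show y a * y b = _
      rw [← prod_filter]
      have h2 : univ.filter (fun v => v ∈ s(a, b)) = {a, b} := by
        ext v
        simp [Sym2.mem_iff]
      rw [h2, prod_pair hab]
  rw [prod_congr rfl h1, Finset.prod_comm]
  refine prod_congr rfl fun v _ => ?_
  rw [← prod_filter, prod_const]
  congr 1
  rw [← hreg v, ← SimpleGraph.card_incidenceFinset_eq_degree, SimpleGraph.incidenceFinset_eq_filter]

/-- the target with absorbed vertex weights -/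
noncomputable def absorb {S : Type*} (d : ℕ) (ω : S → ℝ) (B : Matrix S S ℝ) : Matrix S S ℝ :=
  fun s t => B s t * (ω s * ω t) ^ (1 / (d : ℝ))

theorem absorb_symm {S : Type*} (d : ℕ) (ω : S → ℝ) {B : Matrix S S ℝ} (hB : B.IsSymm) :
    (absorb d ω B).IsSymm := by
  ext s t
  rw [Matrix.transpose_apply]
  unfold absorb
  rw [hB.apply, mul_comm (ω t)]

theorem Zw_absorb (G : SimpleGraph V) (d : ℕ) (hd : 1 ≤ d) (hreg : G.IsRegularOfDegree d)
    {q : ℕ} (ω : Fin q → ℝ) (hω : ∀ s, 0 ≤ ω s) (B : Matrix (Fin q) (Fin q) ℝ) (hB : B.IsSymm) :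
    Zw G ω B hB = TPB.Zpart G (absorb d ω B) (absorb_symm d ω hB) := by
  unfold Zw TPB.Zpart
  refine sum_congr rfl fun σ _ => ?_
  have h1 : ∏ v, ω (σ v) = ∏ e ∈ G.edgeFinset, Sym2.lift ⟨fun a b =>
      ω (σ a) ^ (1 / (d : ℝ)) * ω (σ b) ^ (1 / (d : ℝ)),
      mul_symm (fun v => ω (σ v) ^ (1 / (d : ℝ)))⟩ e := by
    rw [prod_ends G d hreg]
    refine prod_congr rfl fun v _ => ?_
    rw [one_div, Real.rpow_inv_natCast_pow (hω _) (by omega)]
  rw [h1, ← prod_mul_distrib]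
  refine prod_congr (by congr!) fun e _ => ?_
  induction e using Sym2.ind with
  | _ a b =>
    show ω (σ a) ^ (1 / (d : ℝ)) * ω (σ b) ^ (1 / (d : ℝ)) * B (σ a) (σ b) =
      B (σ a) (σ b) * (ω (σ a) * ω (σ b)) ^ (1 / (d : ℝ))
    rw [Real.mul_rpow (hω _) (hω _)]
    ring

theorem Nrm_eq (d : ℕ) {q : ℕ} (ω : Fin q → ℝ) (B : Matrix (Fin q) (Fin q) ℝ) :
    Nrm d ω B = TPB.NN d (absorb d ω B) := by
  unfold Nrm TPB.NN
  congr 1
  ext x
  constructor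
  · rintro ⟨p, p', h1, h2, h3, h4, rfl⟩
    exact ⟨p, p', ⟨h1, h2⟩, ⟨h3, h4⟩, rfl⟩
  · rintro ⟨p, p', ⟨h1, h2⟩, ⟨h3, h4⟩, rfl⟩
    exact ⟨p, p', h1, h2, h3, h4, rfl⟩

theorem absorb_orderable (d : ℕ) {q : ℕ} (ω : Fin q → ℝ) (hω : ∀ s, 0 ≤ ω s)
    {B : Matrix (Fin q) (Fin q) ℝ} (h : TPB.Orderable B) : TPB.Orderable (absorb d ω B) := by
  obtain ⟨ρ, κ, h⟩ := h
  refine ⟨ρ, κ, fun i i' j j' hi hj => ?_⟩
  have h1 := h i i' j j' hi hj
  have h2 : ∀ s t, (ω s * ω t) ^ (1 / (d : ℝ)) = ω s ^ (1 / (d : ℝ)) * ω t ^ (1 / (d : ℝ)) :=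
    fun s t => Real.mul_rpow (hω s) (hω t)
  unfold absorb
  rw [h2, h2, h2, h2]
  have h3 : 0 ≤ ω (ρ i) ^ (1 / (d : ℝ)) * ω (ρ i') ^ (1 / (d : ℝ)) * (ω (κ j) ^ (1 / (d : ℝ)) *
      ω (κ j') ^ (1 / (d : ℝ))) := by
    have a1 := Real.rpow_nonneg (hω (ρ i)) (1 / (d : ℝ))
    have a2 := Real.rpow_nonneg (hω (ρ i')) (1 / (d : ℝ))
    have a3 := Real.rpow_nonneg (hω (κ j)) (1 / (d : ℝ))
    have a4 := Real.rpow_nonneg (hω (κ j')) (1 / (d : ℝ))
    positivity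
  have h4 := mul_le_mul_of_nonneg_right h1 h3
  calc _ = B (ρ i) (κ j') * B (ρ i') (κ j) * (ω (ρ i) ^ (1 / (d : ℝ)) * ω (ρ i') ^ (1 / (d : ℝ)) *
        (ω (κ j) ^ (1 / (d : ℝ)) * ω (κ j') ^ (1 / (d : ℝ)))) := by ring
    _ ≤ _ := h4
    _ = _ := by ring

/-- the limit for orderable targets with vertex weights -/
theorem base_lim (d : ℕ) (hd : 1 ≤ d) {q : ℕ} (ω : Fin q → ℝ) (hω : ∀ s, 0 ≤ ω s)
    (B : Matrix (Fin q) (Fin q) ℝ) (hB : B.IsSymm) (h0 : ∀ s t, 0 ≤ B s t)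
    (h : B.rank ≤ 2 ∨ TPB.Orderable B) (V : ℕ → Type u)
    [∀ n, Fintype (V n)] [∀ n, Nonempty (V n)] (G : ∀ n, SimpleGraph (V n))
    (hreg : ∀ n, (G n).IsRegularOfDegree d) (hbip : ∀ n, (G n).IsBipartite)
    (hgirth : Tendsto (fun n => (G n).egirth) atTop (𝓝 ⊤)) :
    Tendsto (fun n => Zw (G n) ω B hB ^ (1 / (Fintype.card (V n) : ℝ))) atTop
      (𝓝 (Nrm d ω B ^ ((d : ℝ) / 2))) := by
  have h1 : TPB.Orderable B := h.elim (TPB.rank_two B h0) id
  have h2 := TPB.limit_thm d hd (absorb d ω B) (absorb_symm d ω hB)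
    (fun i j => mul_nonneg (h0 i j) (Real.rpow_nonneg (mul_nonneg (hω i) (hω j)) _))
    (absorb_orderable d ω hω h1) V G hreg hbip hgirth
  rw [Nrm_eq]
  refine h2.congr fun n => ?_
  rw [Zw_absorb (G n) d hd (hreg n) ω hω B hB]

end Pool.Agent.W_5dd92e_h6
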