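import Pool.Agent.W_5dd92e_h6.Compare
import Pool.Agent.W_5dd92e_h6.Absorb

set_option autoImplicit false

/-!
# Chains of mergings and the limit
-/

namespace Pool.Agent.W_5dd92e_h6

open Finset Filter Topology
open scoped Classical

universe u

/-- A target: a symmetric matrix `A` on `Fin q` with vertex weights `ω`. -/
structure Tg where
  q : ℕ
  ω : Fin q → ℝ
  A : Matrix (Fin q) (Fin q) ℝ
  symm : A.IsSymm

/-- The partition function of `G` with the target `T`. -/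
noncomputable def Tg.Z (T : Tg) {V : Type u} [Fintype V] (G : SimpleGraph V) : ℝ :=
  Zw G T.ω T.A T.symm

/-- `T'` arises from `T` by merging a class of `m ≥ 1` interchangeable colours: up to the names of the
states, `T` has the neutral states `z : Fin a` and the states `(f, k)` of the types `f : Fin r` in
the `m` interchangeable colours `k = some i` (weights `ν`, bonus `δ`) and in the special colour `none`
(weights `ν'`, bonus `δ'`), and `T'` has the same neutral states and the states `(f, true)` of the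
merged colour (weights `m ν`, bonus `δ / m`) and `(f, false)` of the special colour. -/
def Step (T T' : Tg) : Prop :=
  ∃ (a r m : ℕ) (P : Matrix (Fin a) (Fin a) ℝ) (γ : Matrix (Fin a) (Fin r) ℝ)
    (β δ δ' : Matrix (Fin r) (Fin r) ℝ) (μ : Fin a → ℝ) (ν ν' : Fin r → ℝ)
    (e : Fin T.q ≃ Fin a ⊕ Fin r × Option (Fin m)) (e' : Fin T'.q ≃ Fin a ⊕ Fin r × Bool),
    1 ≤ m ∧ Hyp P γ β δ δ' μ ν ν' ∧
    (∀ s, T.ω s = tw μ (fullP m ν ν') (e s)) ∧
    (∀ s t, T.A s t = tgt P γ β (fullP m δ δ') (e s) (e t)) ∧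
    (∀ s, T'.ω s = tw μ (mergP (fun f => (m : ℝ) * ν f) ν') (e' s)) ∧
    ∀ s t, T'.A s t = tgt P γ β (mergP ((1 / (m : ℝ)) • δ) δ') (e' s) (e' t)

/-- reindexing -/
theorem Zw_reindex {V : Type u} [Fintype V] (G : SimpleGraph V) {S S' : Type} [Fintype S]
    [Fintype S'] (e : S ≃ S') (ω : S → ℝ) (A : Matrix S S ℝ) (hA : A.IsSymm) (ω' : S' → ℝ)
    (A' : Matrix S' S' ℝ) (hA' : A'.IsSymm) (h1 : ∀ s, ω s = ω' (e s))
    (h2 : ∀ s t, A s t = A' (e s) (e t)) : Zw G ω A hA = Zw G ω' A' hA' := by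
  unfold Zw
  rw [← (Equiv.arrowCongr (Equiv.refl V) e).sum_comp]
  refine sum_congr rfl fun σ _ => ?_
  congr 1
  · refine prod_congr rfl fun v _ => ?_
    exact h1 (σ v)
  · refine prod_congr rfl fun x _ => ?_
    induction x using Sym2.ind with
    | _ x y => exact h2 (σ x) (σ y)

theorem Zw_nonneg {V : Type u} [Fintype V] (G : SimpleGraph V) {S : Type} [Fintype S] (ω : S → ℝ)
    (A : Matrix S S ℝ) (hA : A.IsSymm) (hω : ∀ s, 0 ≤ ω s) (h0 : ∀ s t, 0 ≤ A s t) :
    0 ≤ Zw G ω A hA := by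
  unfold Zw
  refine sum_nonneg fun σ _ => mul_nonneg (prod_nonneg fun v _ => hω _) (prod_nonneg fun x _ => ?_)
  induction x using Sym2.ind with
  | _ x y => exact h0 (σ x) (σ y)

theorem Hyp.mnonneg {N F : Type*} {P : Matrix N N ℝ} {γ : Matrix N F ℝ} {β δ δ' : Matrix F F ℝ}
    {μ : N → ℝ} {ν ν' : F → ℝ} (h : Hyp P γ β δ δ' μ ν ν') (m : ℕ) :
    (∀ s, 0 ≤ tw μ (mergP (fun f => (m : ℝ) * ν f) ν') s) ∧
      ∀ s t, 0 ≤ tgt P γ β (mergP ((1 / (m : ℝ)) • δ) δ') s t := by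
  constructor
  · intro s
    rcases s with z | ⟨f, k⟩
    · exact h.μ_nonneg z
    · cases k
      · exact (h.ν_nonneg f).trans (h.ν_le f)
      · exact mul_nonneg (Nat.cast_nonneg m) (h.ν_nonneg f)
  · intro s t
    rcases s with z | ⟨f, k⟩ <;> rcases t with z' | ⟨g, l⟩
    · exact h.P_nonneg z z'
    · exact h.γ_nonneg z g
    · exact h.γ_nonneg z' f
    · simp only [tgt]
      refine add_nonneg (h.β_nonneg f g) ?_
      split_ifs
      · cases k
        · exact (h.δ_nonneg f g).trans (h.δ_le f g)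
        · show 0 ≤ ((1 / (m : ℝ)) • δ) f g
          rw [Matrix.smul_apply, smul_eq_mul]
          exact mul_nonneg (by positivity) (h.δ_nonneg f g)
      · exact le_refl _

theorem Step.bounds {T T' : Tg} (h : Step T T') : ∃ m : ℕ, ∀ (V : Type u) [Fintype V]
    (G : SimpleGraph V), 0 ≤ T'.Z G ∧ T'.Z G ≤ T.Z G ∧ ∀ g : ℕ, 0 < g → (g : ℕ∞) ≤ G.egirth →
      T.Z G ≤ ((m : ℝ) + 1) ^ (Fintype.card V / g) * T'.Z G := by
  obtain ⟨a, r, m, P, γ, β, δ, δ', μ, ν, ν', e, e', hm, hH, h1, h2, h3, h4⟩ := h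
  refine ⟨m, fun V _ G => ?_⟩
  have k1 : T.Z G = _ := Zw_reindex G e T.ω T.A T.symm _ _
    (tgt_symm γ hH.P_symm hH.β_symm (hH.full_symm m)) h1 h2
  have k2 : T'.Z G = _ := Zw_reindex G e' T'.ω T'.A T'.symm _ _
    (tgt_symm γ hH.P_symm hH.β_symm (hH.merg_symm (1 / (m : ℝ)))) h3 h4
  rw [k1, k2]
  exact ⟨Zw_nonneg G _ _ _ (hH.mnonneg m).1 (hH.mnonneg m).2, merg_le G m hm hH,
    fun g hg0 hg => full_le G m hm hH g hg0 hg⟩

/-- merging does not change the limit -/
theorem Step.lim {T T' : Tg} (h : Step T T') (V : ℕ → Type u) [∀ n, Fintype (V n)]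
    [∀ n, Nonempty (V n)] (G : ∀ n, SimpleGraph (V n))
    (hgirth : Tendsto (fun n => (G n).egirth) atTop (𝓝 ⊤)) (L : ℝ) :
    Tendsto (fun n => T.Z (G n) ^ (1 / (Fintype.card (V n) : ℝ))) atTop (𝓝 L) ↔
      Tendsto (fun n => T'.Z (G n) ^ (1 / (Fintype.card (V n) : ℝ))) atTop (𝓝 L) := by
  obtain ⟨m, hm⟩ := h.bounds
  set f : ℕ → ℝ := fun n => T.Z (G n) ^ (1 / (Fintype.card (V n) : ℝ)) with hf
  set g : ℕ → ℝ := fun n => T'.Z (G n) ^ (1 / (Fintype.card (V n) : ℝ)) with hg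
  have hv : ∀ n, (0 : ℝ) < Fintype.card (V n) := fun n => by
    exact_mod_cast Fintype.card_pos
  have g0 : ∀ n, 0 ≤ g n := fun n => Real.rpow_nonneg (hm (V n) (G n)).1 _
  have gf : ∀ n, g n ≤ f n := fun n => by
    refine Real.rpow_le_rpow (hm (V n) (G n)).1 (hm (V n) (G n)).2.1 ?_
    have := hv n
    positivity
  have key : ∀ K : ℕ, 0 < K → ∀ᶠ n in atTop, f n ≤ ((m : ℝ) + 1) ^ (1 / (K : ℝ)) * g n := by
    intro K hK
    have h1 : ∀ᶠ n in atTop, (K : ℕ∞) < (G n).egirth :=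
      hgirth.eventually (lt_mem_nhds (ENat.natCast_lt_top K))
    filter_upwards [h1] with n hn
    have h2 := (hm (V n) (G n)).2.2 K hK hn.le
    have h3 : 0 ≤ T.Z (G n) := (hm (V n) (G n)).1.trans (hm (V n) (G n)).2.1
    have h4 : (0 : ℝ) ≤ 1 / (Fintype.card (V n) : ℝ) := by
      have := hv n
      positivity
    have h5 : (0 : ℝ) ≤ ((m : ℝ) + 1) ^ (Fintype.card (V n) / K) := by positivity
    have h6 := Real.rpow_le_rpow h3 h2 h4
    rw [Real.mul_rpow h5 (hm (V n) (G n)).1] at h6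
    refine h6.trans (mul_le_mul_of_nonneg_right ?_ (g0 n))
    rw [← Real.rpow_natCast, ← Real.rpow_mul (by positivity)]
    refine Real.rpow_le_rpow_of_exponent_le (by
      have : (0 : ℝ) ≤ m := Nat.cast_nonneg m
      linarith) ?_
    have h7 : (((Fintype.card (V n) / K : ℕ)) : ℝ) ≤ (Fintype.card (V n) : ℝ) / K :=
      Nat.cast_div_le
    have h8 := mul_le_mul_of_nonneg_right h7 h4
    refine h8.trans (le_of_eq ?_)
    have := (hv n).ne'
    have hK' : (K : ℝ) ≠ 0 := by exact_mod_cast hK.ne'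
    field_simp
  have hlim1 : Tendsto (fun K : ℕ => ((m : ℝ) + 1) ^ (1 / (K : ℝ))) atTop (𝓝 1) := by
    have h1 : Tendsto (fun K : ℕ => 1 / (K : ℝ)) atTop (𝓝 0) := tendsto_one_div_atTop_nhds_zero_nat
    have h2 := (Real.continuousAt_const_rpow (a := (m : ℝ) + 1) (b := 0) (by positivity)).tendsto.comp
      h1
    rw [Real.rpow_zero] at h2
    exact h2
  -- if the smaller one is bounded by `C` the difference tends to zero
  have hdiff : ∀ C : ℝ, (∀ᶠ n in atTop, g n ≤ C) → Tendsto (fun n => f n - g n) atTop (𝓝 0) := by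
    intro C hC
    rw [Metric.tendsto_atTop]
    intro ε hε
    obtain ⟨K, hK0, hK⟩ : ∃ K : ℕ, 0 < K ∧
        (((m : ℝ) + 1) ^ (1 / (K : ℝ)) - 1) * max C 1 < ε := by
      have h1 : Tendsto (fun K : ℕ => (((m : ℝ) + 1) ^ (1 / (K : ℝ)) - 1) * max C 1) atTop (𝓝 0) := by
        have h2 := (hlim1.sub_const 1).mul_const (max C 1)
        rw [sub_self, zero_mul] at h2
        exact h2
      have h2 := (h1.eventually (gt_mem_nhds hε)).and (eventually_gt_atTop 0)
      obtain ⟨K, hK1, hK2⟩ := h2.exists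
      exact ⟨K, hK2, hK1⟩
    have h1 := (key K hK0).and hC
    rw [eventually_atTop] at h1
    obtain ⟨n0, hn0⟩ := h1
    refine ⟨n0, fun n hn => ?_⟩
    obtain ⟨h2, h3⟩ := hn0 n hn
    rw [Real.dist_eq, sub_zero, abs_of_nonneg (sub_nonneg.2 (gf n))]
    have h4 : (1 : ℝ) ≤ ((m : ℝ) + 1) ^ (1 / (K : ℝ)) := by
      refine Real.one_le_rpow ?_ (by positivity)
      have : (0 : ℝ) ≤ m := Nat.cast_nonneg m
      linarith
    have h5 : (((m : ℝ) + 1) ^ (1 / (K : ℝ)) - 1) * g n ≤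
        (((m : ℝ) + 1) ^ (1 / (K : ℝ)) - 1) * max C 1 :=
      mul_le_mul_of_nonneg_left (h3.trans (le_max_left _ _)) (by linarith)
    linarith
  constructor
  · intro h1
    have h2 : ∀ᶠ n in atTop, g n ≤ L + 1 := by
      have h3 := h1.eventually (gt_mem_nhds (lt_add_one L))
      filter_upwards [h3] with n hn
      exact (gf n).trans hn.le
    have h4 := h1.sub (hdiff (L + 1) h2)
    rw [sub_zero] at h4
    refine h4.congr fun n => ?_
    show f n - (f n - g n) = g n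
    ring
  · intro h1
    have h2 : ∀ᶠ n in atTop, g n ≤ L + 1 := by
      have h3 := h1.eventually (gt_mem_nhds (lt_add_one L))
      filter_upwards [h3] with n hn
      exact hn.le
    have h4 := h1.add (hdiff (L + 1) h2)
    rw [add_zero] at h4
    refine h4.congr fun n => ?_
    show g n + (f n - g n) = f n
    ring

/-- chains of mergings do not change the limit -/
theorem chain_lim {T T' : Tg} (h : Relation.ReflTransGen Step T T') (V : ℕ → Type u)
    [∀ n, Fintype (V n)] [∀ n, Nonempty (V n)] (G : ∀ n, SimpleGraph (V n))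
    (hgirth : Tendsto (fun n => (G n).egirth) atTop (𝓝 ⊤)) (L : ℝ) :
    Tendsto (fun n => T.Z (G n) ^ (1 / (Fintype.card (V n) : ℝ))) atTop (𝓝 L) ↔
      Tendsto (fun n => T'.Z (G n) ^ (1 / (Fintype.card (V n) : ℝ))) atTop (𝓝 L) := by
  induction h with
  | refl => exact Iff.rfl
  | tail _ h2 ih => exact ih.trans (h2.lim V G hgirth L)

/-- the limit for chains of mergings which end in an orderable target -/
theorem chain_base {T T' : Tg} (h : Relation.ReflTransGen Step T T') (hω : ∀ s, 0 ≤ T'.ω s)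
    (h0 : ∀ s t, 0 ≤ T'.A s t) (hb : T'.A.rank ≤ 2 ∨ TPB.Orderable T'.A) (d : ℕ) (hd : 1 ≤ d)
    (V : ℕ → Type u) [∀ n, Fintype (V n)] [∀ n, Nonempty (V n)] (G : ∀ n, SimpleGraph (V n))
    (hreg : ∀ n, (G n).IsRegularOfDegree d) (hbip : ∀ n, (G n).IsBipartite)
    (hgirth : Tendsto (fun n => (G n).egirth) atTop (𝓝 ⊤)) :
    Tendsto (fun n => T.Z (G n) ^ (1 / (Fintype.card (V n) : ℝ))) atTop
      (𝓝 (Nrm d T'.ω T'.A ^ ((d : ℝ) / 2))) :=
  (chain_lim h V G hgirth _).2 (base_lim d hd T'.ω hω T'.A T'.symm h0 hb V G hreg hbip hgirth)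

end Pool.Agent.W_5dd92e_h6
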