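import Mathlib

set_option autoImplicit false

/-!
# Components of a set of edges of a graph of large girth
-/

namespace Pool.Agent.W_5dd92e_h6

open Finset
open scoped Classical

variable {V : Type*} [Fintype V]

/-- the number of vertices of a component -/
noncomputable def nV (H : SimpleGraph V) (C : H.ConnectedComponent) : ℕ :=
  (univ.filter (fun v => H.connectedComponentMk v = C)).card

/-- the component of an edge -/
noncomputable def kE (H : SimpleGraph V) (e : Sym2 V) : H.ConnectedComponent :=
  H.connectedComponentMk e.out.1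

/-- the number of edges of a component -/
noncomputable def nE (H : SimpleGraph V) (F : Finset (Sym2 V)) (C : H.ConnectedComponent) : ℕ :=
  (F.filter (fun e => kE H e = C)).card

theorem kE_mk (H : SimpleGraph V) (u v : V) (h : H.Adj u v) :
    kE H s(u, v) = H.connectedComponentMk u := by
  unfold kE
  have h1 : (s(u, v) : Sym2 V).out.1 ∈ s(u, v) := Sym2.out_fst_mem _
  rw [Sym2.mem_iff] at h1
  rcases h1 with h1 | h1
  · rw [h1]
  · rw [h1]
    exact (SimpleGraph.ConnectedComponent.connectedComponentMk_eq_of_adj h).symm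

/-- the graph with edge set `F` -/
abbrev HF (F : Finset (Sym2 V)) : SimpleGraph V := SimpleGraph.fromEdgeSet (F : Set (Sym2 V))

variable {G : SimpleGraph V} {F : Finset (Sym2 V)}

theorem adj_iff (hF : ∀ e ∈ F, e ∈ G.edgeSet) (u v : V) :
    (HF F).Adj u v ↔ s(u, v) ∈ F := by
  rw [SimpleGraph.fromEdgeSet_adj]
  constructor
  · intro h
    exact h.1
  · intro h
    exact ⟨h, G.ne_of_adj ((SimpleGraph.mem_edgeSet G).1 (hF _ h))⟩

theorem le_G (hF : ∀ e ∈ F, e ∈ G.edgeSet) : HF F ≤ G := by
  intro u v h
  exact (SimpleGraph.mem_edgeSet G).1 (hF _ ((adj_iff hF u v).1 h))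

theorem card_V (H : SimpleGraph V) (C : H.ConnectedComponent) : Nat.card C = nV H C := by
  unfold nV
  rw [Nat.card_eq_fintype_card]
  refine Fintype.card_of_subtype _ fun v => ?_
  simp only [mem_filter, mem_univ, true_and]
  rfl

theorem card_E (hF : ∀ e ∈ F, e ∈ G.edgeSet)
    (C : (HF F).ConnectedComponent) :
    Nat.card C.toSimpleGraph.edgeSet = nE _ F C := by
  unfold nE
  have h1 : (Sym2.map (Subtype.val : C → V)) '' C.toSimpleGraph.edgeSet =
      (F.filter (fun e => kE (HF F) e = C) : Finset (Sym2 V)) := by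
    ext e
    rw [coe_filter, Set.mem_image]
    constructor
    · rintro ⟨e', he', rfl⟩
      induction e' using Sym2.ind with
      | _ x y =>
        rw [SimpleGraph.mem_edgeSet] at he'
        have h2 : (HF F).Adj x.1 y.1 := (C.toSimpleGraph_adj x.2 y.2).1 he'
        rw [Set.mem_ofPred_eq, Sym2.map_mk]
        refine ⟨(adj_iff hF _ _).1 h2, ?_⟩
        show kE (HF F) s(x.1, y.1) = C
        rw [kE_mk _ _ _ h2]
        exact x.2
    · intro he
      rw [Set.mem_ofPred_eq] at he
      induction e using Sym2.ind with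
      | _ x y =>
        have h2 : (HF F).Adj x y := (adj_iff hF _ _).2 he.1
        have h3 : (HF F).connectedComponentMk x = C := by rw [← kE_mk _ _ _ h2]; exact he.2
        have h4 : (HF F).connectedComponentMk y = C := by
          rw [← h3]
          exact (SimpleGraph.ConnectedComponent.connectedComponentMk_eq_of_adj h2).symm
        refine ⟨s(⟨x, h3⟩, ⟨y, h4⟩), ?_, rfl⟩
        rw [SimpleGraph.mem_edgeSet]
        exact (C.toSimpleGraph_adj h3 h4).2 h2
  have h2 : Set.ncard (Sym2.map (Subtype.val : C → V) '' C.toSimpleGraph.edgeSet) =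
      Set.ncard C.toSimpleGraph.edgeSet :=
    Set.ncard_image_of_injective _ (Sym2.map.injective Subtype.val_injective)
  rw [h1, Set.ncard_coe_finset] at h2
  rw [h2]
  rfl

theorem nV_le (hF : ∀ e ∈ F, e ∈ G.edgeSet)
    (C : (HF F).ConnectedComponent) :
    nV _ C ≤ nE _ F C + 1 := by
  rw [← card_V, ← card_E hF]
  exact C.connected_toSimpleGraph.card_vert_le_card_edgeSet_add_one

theorem nV_pos (H : SimpleGraph V) (C : H.ConnectedComponent) : 0 < nV H C := by
  unfold nV
  rw [card_pos]
  obtain ⟨v, hv⟩ := C.exists_rep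
  exact ⟨v, mem_filter.2 ⟨mem_univ _, hv⟩⟩

theorem sum_nV (F : Finset (Sym2 V)) :
    ∑ C : (HF F).ConnectedComponent, nV (HF F) C = Fintype.card V := by
  unfold nV
  rw [← card_univ]
  exact (card_eq_sum_card_fiberwise (fun v _ => mem_univ _)).symm

/-- a component which is not a tree has at least as many vertices as the girth -/
theorem girth_le (hF : ∀ e ∈ F, e ∈ G.edgeSet) (g : ℕ) (hg : (g : ℕ∞) ≤ G.egirth)
    (C : (HF F).ConnectedComponent)
    (hC : nV _ C ≠ nE _ F C + 1) : g ≤ nV _ C := by
  have h1 : ¬ C.toSimpleGraph.IsAcyclic := by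
    intro h
    apply hC
    have h2 : C.toSimpleGraph.IsTree := ⟨C.connected_toSimpleGraph, h⟩
    rw [SimpleGraph.isTree_iff_connected_and_card] at h2
    rw [← card_V, ← card_E hF]
    exact h2.2.symm
  unfold SimpleGraph.IsAcyclic at h1
  push Not at h1
  obtain ⟨a, w, hw⟩ := h1
  have h2 : (w.map C.toSimpleGraph_hom).IsCycle := by
    rw [SimpleGraph.Walk.isCycle_map_iff_of_injective]
    · exact hw
    · exact Subtype.val_injective
  have h3 : (g : ℕ∞) ≤ ((w.map C.toSimpleGraph_hom).length : ℕ∞) :=
    hg.trans ((SimpleGraph.egirth_anti (le_G hF)).trans (SimpleGraph.egirth_le_length h2))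
  rw [SimpleGraph.Walk.length_map, Nat.cast_le] at h3
  have h4 : w.support.tail.length ≤ Fintype.card C := hw.support_nodup.length_le_card
  rw [List.length_tail, SimpleGraph.Walk.length_support, Nat.add_sub_cancel] at h4
  rw [← card_V, Nat.card_eq_fintype_card]
  exact h3.trans h4

end Pool.Agent.W_5dd92e_h6
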