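import Pool.Agent.W_5dd92e_h6.Lift

set_option autoImplicit false

/-!
# Merging interchangeable colours changes the partition function only by a subexponential factor
-/

namespace Pool.Agent.W_5dd92e_h6

open Finset
open scoped Classical

variable {V : Type*} [Fintype V] {N F : Type*} [Fintype N] [Fintype F]

/-- Hypotheses on the data of a target with interchangeable colours: everything is nonnegative and
symmetric, and the special colour has at least the bonus and the weight of the other colours. -/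
structure Hyp (P : Matrix N N ℝ) (γ : Matrix N F ℝ) (β δ δ' : Matrix F F ℝ) (μ : N → ℝ)
    (ν ν' : F → ℝ) : Prop where
  P_symm : P.IsSymm
  β_symm : β.IsSymm
  δ_symm : δ.IsSymm
  δ'_symm : δ'.IsSymm
  P_nonneg : ∀ z z', 0 ≤ P z z'
  γ_nonneg : ∀ z f, 0 ≤ γ z f
  β_nonneg : ∀ f g, 0 ≤ β f g
  δ_nonneg : ∀ f g, 0 ≤ δ f g
  δ_le : ∀ f g, δ f g ≤ δ' f g
  μ_nonneg : ∀ z, 0 ≤ μ z
  ν_nonneg : ∀ f, 0 ≤ ν f
  ν_le : ∀ f, ν f ≤ ν' f

variable {P : Matrix N N ℝ} {γ : Matrix N F ℝ} {β δ δ' : Matrix F F ℝ} {μ : N → ℝ} {ν ν' : F → ℝ}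

omit [Fintype N] [Fintype F] in
theorem Hyp.full_symm (h : Hyp P γ β δ δ' μ ν ν') (m : ℕ) (k : Option (Fin m)) :
    (fullP m δ δ' k).IsSymm := by
  cases k with
  | none => exact h.δ'_symm
  | some i => exact h.δ_symm

omit [Fintype N] [Fintype F] in
theorem smul_symm (c : ℝ) (h : δ.IsSymm) : (c • δ).IsSymm := by
  ext f g
  rw [Matrix.transpose_apply, Matrix.smul_apply, Matrix.smul_apply, h.apply]

omit [Fintype N] [Fintype F] in
theorem Hyp.merg_symm (h : Hyp P γ β δ δ' μ ν ν') (c : ℝ) (k : Bool) :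
    (mergP (c • δ) δ' k).IsSymm := by
  cases k with
  | false => exact h.δ'_symm
  | true => exact smul_symm c h.δ_symm

/-- the weights of a type with a colour -/
noncomputable def W1 (m : ℕ) (μ : N → ℝ) (ν : F → ℝ) : N ⊕ F → ℝ
  | Sum.inl z => μ z * (1 / ((m : ℝ) + 1))
  | Sum.inr f => ν f

omit [Fintype N] [Fintype F] in
theorem ww_full (m : ℕ) (μ : N → ℝ) (ν ν' : F → ℝ) (t : N ⊕ F) (k : Option (Fin m)) :
    ww μ (fullP m ν ν') (fun _ => 1 / ((m : ℝ) + 1)) t k =
      vO m (W1 m μ ν) (W1 m μ ν') t k := by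
  rcases t with z | f <;> cases k <;> rfl

omit [Fintype N] [Fintype F] in
theorem ww_merg (m : ℕ) (μ : N → ℝ) (ν ν' : F → ℝ) (t : N ⊕ F) (k : Bool) :
    ww μ (mergP (fun f => (m : ℝ) * ν f) ν')
      (fun k => if k = true then (m : ℝ) / ((m : ℝ) + 1) else 1 / ((m : ℝ) + 1)) t k =
      vB m (W1 m μ ν) (W1 m μ ν') t k := by
  rcases t with z | f <;> cases k <;> simp only [ww, vB, W1, mergP, if_true, if_false,
    Bool.false_eq_true]
  ring

theorem full_eq (G : SimpleGraph V) (m : ℕ) (h : Hyp P γ β δ δ' μ ν ν') :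
    Zw G (tw μ (fullP m ν ν')) (tgt P γ β (fullP m δ δ')) (tgt_symm γ h.P_symm h.β_symm
      (h.full_symm m)) =
    ∑ τ : V → N ⊕ F, SS G (vO m (fun v => W1 m μ ν (τ v)) (fun v => W1 m μ ν' (τ v)))
      (vO m (fun e => kk (ee (N := N) δ) (ee_symm h.δ_symm) (Sym2.map τ e))
        (fun e => kk (ee (N := N) δ') (ee_symm h.δ'_symm) (Sym2.map τ e)))
      (fun e => kk (bb P γ β) (bb_symm γ h.P_symm h.β_symm) (Sym2.map τ e)) := by
  rw [lift_eq G P γ β (fullP m δ δ') h.P_symm h.β_symm (h.full_symm m) μ (fullP m ν ν')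
    (fun _ => 1 / ((m : ℝ) + 1))]
  · refine sum_congr rfl fun τ _ => ?_
    have h1 : (fun v => ww μ (fullP m ν ν') (fun _ => 1 / ((m : ℝ) + 1)) (τ v)) =
        vO m (fun v => W1 m μ ν (τ v)) (fun v => W1 m μ ν' (τ v)) := by
      funext v k
      exact ww_full m μ ν ν' (τ v) k
    have h2 : (fun (e : Sym2 V) k => kk (ee (N := N) (fullP m δ δ' k))
        (ee_symm (h.full_symm m k)) (Sym2.map τ e)) =
        vO m (fun e => kk (ee (N := N) δ) (ee_symm h.δ_symm) (Sym2.map τ e))
        (fun e => kk (ee (N := N) δ') (ee_symm h.δ'_symm) (Sym2.map τ e)) := by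
      funext e k
      unfold vO
      cases k <;> rfl
    rw [h1, h2]
  · rw [sum_const, card_univ, Fintype.card_option, Fintype.card_fin, nsmul_eq_mul]
    push_cast
    have : (0 : ℝ) < (m : ℝ) + 1 := by positivity
    field_simp

theorem merg_eq (G : SimpleGraph V) (m : ℕ) (h : Hyp P γ β δ δ' μ ν ν') :
    Zw G (tw μ (mergP (fun f => (m : ℝ) * ν f) ν')) (tgt P γ β (mergP ((1 / (m : ℝ)) • δ) δ'))
      (tgt_symm γ h.P_symm h.β_symm (h.merg_symm (1 / (m : ℝ)))) =
    ∑ τ : V → N ⊕ F, SS G (vB m (fun v => W1 m μ ν (τ v)) (fun v => W1 m μ ν' (τ v)))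
      (vB (1 / m) (fun e => kk (ee (N := N) δ) (ee_symm h.δ_symm) (Sym2.map τ e))
        (fun e => kk (ee (N := N) δ') (ee_symm h.δ'_symm) (Sym2.map τ e)))
      (fun e => kk (bb P γ β) (bb_symm γ h.P_symm h.β_symm) (Sym2.map τ e)) := by
  rw [lift_eq G P γ β (mergP ((1 / (m : ℝ)) • δ) δ') h.P_symm h.β_symm
    (h.merg_symm (1 / (m : ℝ))) μ (mergP (fun f => (m : ℝ) * ν f) ν')
    (fun k => if k = true then (m : ℝ) / ((m : ℝ) + 1) else 1 / ((m : ℝ) + 1))]
  · refine sum_congr rfl fun τ _ => ?_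
    have h1 : (fun v => ww μ (mergP (fun f => (m : ℝ) * ν f) ν')
        (fun k => if k = true then (m : ℝ) / ((m : ℝ) + 1) else 1 / ((m : ℝ) + 1)) (τ v)) =
        vB m (fun v => W1 m μ ν (τ v)) (fun v => W1 m μ ν' (τ v)) := by
      funext v k
      exact ww_merg m μ ν ν' (τ v) k
    have h2 : (fun (e : Sym2 V) k => kk (ee (N := N) (mergP ((1 / (m : ℝ)) • δ) δ' k))
        (ee_symm (h.merg_symm (1 / (m : ℝ)) k)) (Sym2.map τ e)) =
        vB (1 / m) (fun e => kk (ee (N := N) δ) (ee_symm h.δ_symm) (Sym2.map τ e))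
        (fun e => kk (ee (N := N) δ') (ee_symm h.δ'_symm) (Sym2.map τ e)) := by
      funext e k
      unfold vB
      cases k
      · rfl
      · induction e using Sym2.ind with
        | _ x y =>
          show ee (N := N) ((1 / (m : ℝ)) • δ) (τ x) (τ y) = 1 / (m : ℝ) *
            ee (N := N) δ (τ x) (τ y)
          rcases τ x with z | f <;> rcases τ y with z' | g
          · show (0 : ℝ) = 1 / (m : ℝ) * 0
            ring
          · show (0 : ℝ) = 1 / (m : ℝ) * 0
            ring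
          · show (0 : ℝ) = 1 / (m : ℝ) * 0
            ring
          · rfl
    rw [h1, h2]
  · rw [Fintype.sum_bool]
    simp only [if_true, if_false, Bool.false_eq_true]
    have : (0 : ℝ) < (m : ℝ) + 1 := by positivity
    field_simp

theorem Hyp.wh (h : Hyp P γ β δ δ' μ ν ν') (m : ℕ) (τ : V → N ⊕ F) :
    WH (fun v => W1 m μ ν (τ v)) (fun v => W1 m μ ν' (τ v))
      (fun e => kk (ee (N := N) δ) (ee_symm h.δ_symm) (Sym2.map τ e))
      (fun e => kk (ee (N := N) δ') (ee_symm h.δ'_symm) (Sym2.map τ e))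
      (fun e => kk (bb P γ β) (bb_symm γ h.P_symm h.β_symm) (Sym2.map τ e)) where
  w0 v := by
    rcases τ v with z | f
    · exact mul_nonneg (h.μ_nonneg z) (by positivity)
    · exact h.ν_nonneg f
  w12 v := by
    rcases τ v with z | f
    · exact le_refl _
    · exact h.ν_le f
  u0 e := by
    induction e using Sym2.ind with
    | _ x y =>
      show 0 ≤ ee (N := N) δ (τ x) (τ y)
      rcases τ x with z | f <;> rcases τ y with z' | g
      · exact le_refl _
      · exact le_refl _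
      · exact le_refl _
      · exact h.δ_nonneg f g
  u12 e := by
    induction e using Sym2.ind with
    | _ x y =>
      show ee (N := N) δ (τ x) (τ y) ≤ ee (N := N) δ' (τ x) (τ y)
      rcases τ x with z | f <;> rcases τ y with z' | g
      · exact le_refl _
      · exact le_refl _
      · exact le_refl _
      · exact h.δ_le f g
  b0 e := by
    induction e using Sym2.ind with
    | _ x y =>
      show 0 ≤ bb P γ β (τ x) (τ y)
      rcases τ x with z | f <;> rcases τ y with z' | g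
      · exact h.P_nonneg z z'
      · exact h.γ_nonneg z g
      · exact h.γ_nonneg z' f
      · exact h.β_nonneg f g

/-- merging does not increase the partition function -/
theorem merg_le (G : SimpleGraph V) (m : ℕ) (hm : 1 ≤ m) (h : Hyp P γ β δ δ' μ ν ν') :
    Zw G (tw μ (mergP (fun f => (m : ℝ) * ν f) ν')) (tgt P γ β (mergP ((1 / (m : ℝ)) • δ) δ'))
      (tgt_symm γ h.P_symm h.β_symm (h.merg_symm (1 / (m : ℝ)))) ≤
    Zw G (tw μ (fullP m ν ν')) (tgt P γ β (fullP m δ δ')) (tgt_symm γ h.P_symm h.β_symm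
      (h.full_symm m)) := by
  rw [full_eq G m h, merg_eq G m h]
  exact sum_le_sum fun τ _ => SS_le G m hm (h.wh m τ)

/-- merging decreases the partition function by at most the factor `(m + 1) ^ (v / g)` -/
theorem full_le (G : SimpleGraph V) (m : ℕ) (hm : 1 ≤ m) (h : Hyp P γ β δ δ' μ ν ν') (g : ℕ)
    (hg0 : 0 < g) (hg : (g : ℕ∞) ≤ G.egirth) :
    Zw G (tw μ (fullP m ν ν')) (tgt P γ β (fullP m δ δ')) (tgt_symm γ h.P_symm h.β_symm
      (h.full_symm m)) ≤ ((m : ℝ) + 1) ^ (Fintype.card V / g) *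
    Zw G (tw μ (mergP (fun f => (m : ℝ) * ν f) ν')) (tgt P γ β (mergP ((1 / (m : ℝ)) • δ) δ'))
      (tgt_symm γ h.P_symm h.β_symm (h.merg_symm (1 / (m : ℝ)))) := by
  rw [full_eq G m h, merg_eq G m h, mul_sum]
  exact sum_le_sum fun τ _ => le_SS G m hm (h.wh m τ) g hg0 hg

end Pool.Agent.W_5dd92e_h6
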