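import Mathlib

set_option autoImplicit false

/-!
# Targets with interchangeable colours: definitions
-/

namespace Pool.Agent.W_5dd92e_h6

open Finset
open scoped Classical

/-- The partition function of `G` with target `A` and vertex weights `ω`: the sum over all maps
`σ : V → S` of the product of `ω (σ v)` over the vertices `v` and of `A (σ u) (σ v)` over the edges
`uv`. For `ω = 1` it is the partition function `Z(G, A)` of the problem; if `G` is `d`-regular it is
`Z(G, A')` with `A' s t = A s t * (ω s * ω t)^(1/d)`. -/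
noncomputable def Zw {V : Type*} [Fintype V] (G : SimpleGraph V) {S : Type*} [Fintype S] (ω : S → ℝ)
    (A : Matrix S S ℝ) (hA : A.IsSymm) : ℝ :=
  ∑ σ : V → S, (∏ v, ω (σ v)) * ∏ e ∈ G.edgeFinset,
    Sym2.lift ⟨fun u v => A (σ u) (σ v), fun u v => (hA.apply (σ u) (σ v)).symm⟩ e

/-- The target with neutral states `N` and coloured states `(f, k)`, `f : F` the type and `k : K` the
colour. The entries do not depend on the colours, except that `ε k f g` is added between two
states `(f, k)`, `(g, k)` of the same colour `k`. -/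
noncomputable def tgt {N F K : Type*} (P : Matrix N N ℝ) (γ : Matrix N F ℝ) (β : Matrix F F ℝ)
    (ε : K → Matrix F F ℝ) : Matrix (N ⊕ F × K) (N ⊕ F × K) ℝ
  | Sum.inl z, Sum.inl z' => P z z'
  | Sum.inl z, Sum.inr f => γ z f.1
  | Sum.inr f, Sum.inl z => γ z f.1
  | Sum.inr f, Sum.inr g => β f.1 g.1 + if f.2 = g.2 then ε f.2 f.1 g.1 else 0

/-- vertex weights `μ z` of the neutral states and `ν k f` of the coloured states `(f, k)` -/
def tw {N F K : Type*} (μ : N → ℝ) (ν : K → F → ℝ) : N ⊕ F × K → ℝ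
  | Sum.inl z => μ z
  | Sum.inr f => ν f.2 f.1

theorem tgt_symm {N F K : Type*} {P : Matrix N N ℝ} (γ : Matrix N F ℝ) {β : Matrix F F ℝ}
    {ε : K → Matrix F F ℝ} (hP : P.IsSymm) (hβ : β.IsSymm) (hε : ∀ k, (ε k).IsSymm) :
    (tgt P γ β ε).IsSymm := by
  ext s t
  rw [Matrix.transpose_apply]
  rcases s with z | f <;> rcases t with z' | g
  · exact hP.apply _ _
  · rfl
  · rfl
  · show β g.1 f.1 + (if g.2 = f.2 then ε g.2 g.1 f.1 else 0) =
      β f.1 g.1 + if f.2 = g.2 then ε f.2 f.1 g.1 else 0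
    rw [hβ.apply]
    by_cases h : f.2 = g.2
    · rw [if_pos h, if_pos h.symm, ← h, (hε f.2).apply]
    · rw [if_neg h, if_neg (fun h' => h h'.symm)]

/-- `x` for each of the `m` interchangeable colours, `y` for the special colour `none` -/
def fullP {X : Type*} (m : ℕ) (x y : X) : Option (Fin m) → X := fun k => k.elim y (fun _ => x)

/-- the first value for the merged colour `true`, the second one for the special colour `false` -/
def mergP {X : Type*} (x y : X) : Bool → X := fun k => if k = true then x else y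

/-- the supremum of `∑ B s t (ω s ω t)^(1/d) (p s p' t)^((d-1)/d)` over probability vectors `p`, `p'` -/
noncomputable def Nrm {S : Type*} [Fintype S] (d : ℕ) (ω : S → ℝ) (B : Matrix S S ℝ) : ℝ :=
  sSup {x : ℝ | ∃ p p' : S → ℝ, (∀ s, 0 ≤ p s) ∧ ∑ s, p s = 1 ∧ (∀ s, 0 ≤ p' s) ∧ ∑ s, p' s = 1 ∧
    x = ∑ s, ∑ t, B s t * (ω s * ω t) ^ (1 / (d : ℝ)) * (p s * p' t) ^ (((d : ℝ) - 1) / d)}

end Pool.Agent.W_5dd92e_h6
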