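import Pool.Agent.W_5dd92e_h6.Rc
import Pool.Agent.W_5dd92e_h6.Defs

set_option autoImplicit false

/-!
# Types and colours
-/

namespace Pool.Agent.W_5dd92e_h6

open Finset
open scoped Classical

variable {V : Type*} [Fintype V]

/-- a symmetric matrix as a function on unordered pairs -/
def kk {S : Type*} (A : Matrix S S ℝ) (hA : A.IsSymm) : Sym2 S → ℝ :=
  Sym2.lift ⟨fun s t => A s t, fun s t => (hA.apply s t).symm⟩

theorem kk_mk {S : Type*} (A : Matrix S S ℝ) (hA : A.IsSymm) (s t : S) : kk A hA s(s, t) = A s t :=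
  rfl

theorem Zw_kk (G : SimpleGraph V) {S : Type*} [Fintype S] (ω : S → ℝ) (A : Matrix S S ℝ)
    (hA : A.IsSymm) :
    Zw G ω A hA = ∑ σ : V → S, (∏ v, ω (σ v)) * ∏ e ∈ G.edgeFinset, kk A hA (Sym2.map σ e) := by
  unfold Zw
  refine sum_congr rfl fun σ _ => ?_
  congr 1
  refine prod_congr rfl fun e _ => ?_
  induction e using Sym2.ind with
  | _ x y => rfl

theorem merge (G : SimpleGraph V) {S S' : Type*} [Fintype S] [Fintype S'] (π : S' → S)
    (ω' : S' → ℝ) (ω : S → ℝ) (h : ∀ s, ∑ s' ∈ univ.filter (fun s' => π s' = s), ω' s' = ω s)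
    (k : Sym2 S → ℝ) :
    ∑ σ : V → S', (∏ v, ω' (σ v)) * ∏ e ∈ G.edgeFinset, k (Sym2.map (fun v => π (σ v)) e) =
      ∑ σ : V → S, (∏ v, ω (σ v)) * ∏ e ∈ G.edgeFinset, k (Sym2.map σ e) := by
  rw [← sum_fiberwise univ (fun σ : V → S' => fun v => π (σ v))]
  refine sum_congr rfl fun σ _ => ?_
  have h1 : univ.filter (fun σ' : V → S' => (fun v => π (σ' v)) = σ) =
      Fintype.piFinset (fun v => univ.filter (fun s' => π s' = σ v)) := by
    ext σ'
    simp only [mem_filter, mem_univ, true_and, Fintype.mem_piFinset]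
    exact funext_iff
  rw [h1]
  have h2 : ∀ σ' ∈ Fintype.piFinset (fun v => univ.filter (fun s' => π s' = σ v)),
      (∏ v, ω' (σ' v)) * ∏ e ∈ G.edgeFinset, k (Sym2.map (fun v => π (σ' v)) e) =
        (∏ v, ω' (σ' v)) * ∏ e ∈ G.edgeFinset, k (Sym2.map σ e) := by
    intro σ' hσ'
    rw [← h1, mem_filter] at hσ'
    rw [hσ'.2]
  rw [sum_congr rfl h2, ← sum_mul, ← prod_univ_sum]
  congr 1
  exact prod_congr rfl fun v _ => h (σ v)

section lift

variable {N F K : Type*} [Fintype N] [Fintype F] [Fintype K]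

/-- the colour-independent part of the kernel -/
def bb (P : Matrix N N ℝ) (γ : Matrix N F ℝ) (β : Matrix F F ℝ) : Matrix (N ⊕ F) (N ⊕ F) ℝ
  | Sum.inl z, Sum.inl z' => P z z'
  | Sum.inl z, Sum.inr f => γ z f
  | Sum.inr f, Sum.inl z => γ z f
  | Sum.inr f, Sum.inr g => β f g

/-- the bonus for equal colours -/
def ee (ε : Matrix F F ℝ) : Matrix (N ⊕ F) (N ⊕ F) ℝ
  | Sum.inr f, Sum.inr g => ε f g
  | _, _ => 0

omit [Fintype N] [Fintype F] in
theorem bb_symm {P : Matrix N N ℝ} (γ : Matrix N F ℝ) {β : Matrix F F ℝ} (hP : P.IsSymm)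
    (hβ : β.IsSymm) : (bb P γ β).IsSymm := by
  ext s t
  rw [Matrix.transpose_apply]
  rcases s with z | f <;> rcases t with z' | g
  · exact hP.apply _ _
  · rfl
  · rfl
  · exact hβ.apply _ _

omit [Fintype N] [Fintype F] in
theorem ee_symm {ε : Matrix F F ℝ} (hε : ε.IsSymm) : (ee (N := N) ε).IsSymm := by
  ext s t
  rw [Matrix.transpose_apply]
  rcases s with z | f <;> rcases t with z' | g
  · rfl
  · rfl
  · rfl
  · exact hε.apply _ _

/-- weights of the types with labels -/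
def ww (μ : N → ℝ) (ν : K → F → ℝ) (θ : K → ℝ) : N ⊕ F → K → ℝ
  | Sum.inl z, k => μ z * θ k
  | Sum.inr f, k => ν k f

/-- the projection which forgets the label of a neutral state -/
def pr : (N ⊕ F) × K → N ⊕ F × K
  | (Sum.inl z, _) => Sum.inl z
  | (Sum.inr f, k) => Sum.inr (f, k)

theorem pr_sum (μ : N → ℝ) (ν : K → F → ℝ) (θ : K → ℝ) (hθ : ∑ k, θ k = 1) (s : N ⊕ F × K) :
    ∑ s' ∈ univ.filter (fun s' : (N ⊕ F) × K => pr s' = s), ww μ ν θ s'.1 s'.2 = tw μ ν s := by
  rcases s with z | ⟨f, k⟩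
  · have h1 : univ.filter (fun s' : (N ⊕ F) × K => pr s' = Sum.inl z) =
        univ.image (fun k : K => ((Sum.inl z : N ⊕ F), k)) := by
      ext ⟨t, k⟩
      simp only [mem_filter, mem_univ, true_and, mem_image]
      constructor
      · intro h
        rcases t with z' | f
        · have h2 : z' = z := Sum.inl.inj h
          exact ⟨k, by rw [h2]⟩
        · exact absurd h (by simp [pr])
      · rintro ⟨k', h⟩
        rw [← h]
        rfl
    rw [h1, sum_image (fun a _ b _ h => congrArg Prod.snd h)]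
    show ∑ k, μ z * θ k = μ z
    rw [← mul_sum, hθ, mul_one]
  · have h1 : univ.filter (fun s' : (N ⊕ F) × K => pr s' = Sum.inr (f, k)) =
        {((Sum.inr f : N ⊕ F), k)} := by
      ext ⟨t, k'⟩
      simp only [mem_filter, mem_univ, true_and, mem_singleton]
      constructor
      · intro h
        rcases t with z' | f'
        · exact absurd h (by simp [pr])
        · have h2 : (f', k') = (f, k) := Sum.inr.inj h
          rw [Prod.mk.injEq] at h2
          rw [h2.1, h2.2]
      · intro h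
        rw [h]
        rfl
    rw [h1, sum_singleton]
    rfl

theorem lift_eq (G : SimpleGraph V) (P : Matrix N N ℝ) (γ : Matrix N F ℝ) (β : Matrix F F ℝ)
    (ε : K → Matrix F F ℝ) (hP : P.IsSymm) (hβ : β.IsSymm) (hε : ∀ k, (ε k).IsSymm) (μ : N → ℝ)
    (ν : K → F → ℝ) (θ : K → ℝ) (hθ : ∑ k, θ k = 1) :
    Zw G (tw μ ν) (tgt P γ β ε) (tgt_symm γ hP hβ hε) =
      ∑ τ : V → N ⊕ F, SS G (fun v => ww μ ν θ (τ v))
        (fun e k => kk (ee (N := N) (ε k)) (ee_symm (hε k)) (Sym2.map τ e))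
        (fun e => kk (bb P γ β) (bb_symm γ hP hβ) (Sym2.map τ e)) := by
  rw [Zw_kk, ← merge G (pr (N := N) (F := F) (K := K)) (fun s' => ww μ ν θ s'.1 s'.2) (tw μ ν)
    (fun s => by convert pr_sum μ ν θ hθ s)]
  unfold SS
  rw [← Fintype.sum_prod_type', ← (Equiv.arrowProdEquivProdArrow V (fun _ => N ⊕ F)
    (fun _ => K)).sum_comp]
  refine sum_congr rfl fun σ _ => ?_
  congr 1
  refine prod_congr rfl fun e _ => ?_
  induction e using Sym2.ind with
  | _ x y =>
    simp only [Sym2.map_mk]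
    show tgt P γ β ε (pr (σ x)) (pr (σ y)) = (if (σ x).2 = (σ y).2 then
      ee (N := N) (ε (σ x).2) (σ x).1 (σ y).1 else 0) + bb P γ β (σ x).1 (σ y).1
    rcases hx : σ x with ⟨z | f, k⟩ <;> rcases hy : σ y with ⟨z' | g, l⟩
    · show P z z' = (if k = l then (0 : ℝ) else 0) + P z z'
      simp
    · show γ z g = (if k = l then (0 : ℝ) else 0) + γ z g
      simp
    · show γ z' f = (if k = l then (0 : ℝ) else 0) + γ z' f
      simp
    · show β f g + (if k = l then ε k f g else 0) = (if k = l then ε k f g else 0) + β f g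
      ring

end lift

end Pool.Agent.W_5dd92e_h6
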