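import Pool.Agent.W_5dd92e_h6.Comp

set_option autoImplicit false

/-!
# Comparison of interchangeable colours with one weighted colour
-/

namespace Pool.Agent.W_5dd92e_h6

open Finset
open scoped Classical

variable {V : Type*} [Fintype V]

/-- the diagonal kernel with entries `u` -/
noncomputable def dk {K : Type*} (u : K → ℝ) : Sym2 K → ℝ :=
  Sym2.lift ⟨fun i j => if i = j then u i else 0, fun i j => by
    by_cases h : i = j
    · subst h; rfl
    · show (if i = j then u i else 0) = if j = i then u j else 0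
      rw [if_neg h, if_neg (fun h' => h h'.symm)]⟩

theorem dk_mk {K : Type*} (u : K → ℝ) (i j : K) : dk u s(i, j) = if i = j then u i else 0 := rfl

/-- the weight of a component with label `k` -/
noncomputable def cw {K : Type*} (w : V → K → ℝ) (u : Sym2 V → K → ℝ) (F : Finset (Sym2 V))
    (C : (HF F).ConnectedComponent) (k : K) : ℝ :=
  (∏ v ∈ univ.filter (fun v => (HF F).connectedComponentMk v = C), w v k) *
    ∏ e ∈ F.filter (fun e => kE (HF F) e = C), u e k

/-- the weight of the components -/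
noncomputable def clw {K : Type*} [Fintype K] (w : V → K → ℝ) (u : Sym2 V → K → ℝ)
    (F : Finset (Sym2 V)) : ℝ :=
  ∏ C : (HF F).ConnectedComponent, ∑ k, cw w u F C k

variable {G : SimpleGraph V} {F : Finset (Sym2 V)}

theorem cluster (hF : ∀ e ∈ F, e ∈ G.edgeSet) {K : Type*} [Fintype K] (w : V → K → ℝ)
    (u : Sym2 V → K → ℝ) :
    ∑ s : V → K, (∏ v, w v (s v)) * ∏ e ∈ F, dk (u e) (Sym2.map s e) = clw w u F := by
  set mk := (HF F).connectedComponentMk with hmk
  let g : ((HF F).ConnectedComponent → K) → V → K := fun φ v => φ (mk v)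
  have hsurj : Function.Surjective mk := fun C => C.exists_rep
  have hg : Function.Injective g := by
    intro φ φ' h
    funext C
    obtain ⟨v, rfl⟩ := hsurj C
    exact congrFun h v
  -- the sum over the maps which are constant on the components
  have h1 : ∑ s : V → K, (∏ v, w v (s v)) * ∏ e ∈ F, dk (u e) (Sym2.map s e) =
      ∑ φ, (∏ v, w v (g φ v)) * ∏ e ∈ F, dk (u e) (Sym2.map (g φ) e) := by
    rw [← sum_image (s := univ) (g := g) (f := fun s => (∏ v, w v (s v)) *
      ∏ e ∈ F, dk (u e) (Sym2.map s e)) (fun a _ b _ h => hg h)]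
    symm
    apply sum_subset (subset_univ _)
    intro s _ hs
    by_contra hne
    apply hs
    have h2 : ∀ x y, (HF F).Adj x y → s x = s y := by
      intro x y hxy
      by_contra hxy'
      apply hne
      have h3 : ∏ e ∈ F, dk (u e) (Sym2.map s e) = 0 := by
        refine prod_eq_zero ((adj_iff hF x y).1 hxy) ?_
        rw [Sym2.map_mk]
        exact if_neg hxy'
      rw [h3, mul_zero]
    have h4 : ∀ x y, (HF F).Reachable x y → s x = s y := by
      rintro x y ⟨p⟩
      induction p with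
      | nil => rfl
      | cons h p ih => exact (h2 _ _ h).trans ih
    rw [mem_image]
    refine ⟨fun C => s C.out, mem_univ _, ?_⟩
    funext v
    apply h4
    exact SimpleGraph.ConnectedComponent.exact (Quot.out_eq (mk v))
  rw [h1]
  unfold clw cw
  rw [prod_univ_sum, Fintype.piFinset_univ]
  refine sum_congr rfl fun φ _ => ?_
  rw [prod_mul_distrib]
  congr 1
  · rw [← prod_fiberwise univ mk]
    refine prod_congr rfl fun C _ => ?_
    refine prod_congr rfl fun v hv => ?_
    have h9 : mk v = C := (mem_filter.1 hv).2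
    show w v (φ (mk v)) = w v (φ C)
    rw [h9]
  · have h5 : ∀ e ∈ F, dk (u e) (Sym2.map (g φ) e) = u e (φ (kE (HF F) e)) := by
      intro e he
      induction e using Sym2.ind with
      | _ x y =>
        have h6 : (HF F).Adj x y := (adj_iff hF x y).2 he
        have h7 : mk x = mk y := SimpleGraph.ConnectedComponent.connectedComponentMk_eq_of_adj h6
        rw [Sym2.map_mk, kE_mk _ _ _ h6]
        show (if φ (mk x) = φ (mk y) then u s(x, y) (φ (mk x)) else 0) = u s(x, y) (φ (mk x))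
        rw [if_pos (by rw [h7])]
    rw [prod_congr rfl h5, ← prod_fiberwise F (kE (HF F))]
    refine prod_congr rfl fun C _ => ?_
    refine prod_congr rfl fun e he => ?_
    rw [(mem_filter.1 he).2]

/-- a spin sum with inhomogeneous couplings: `b e` between different labels, `b e + u e k` between
equal labels `k` -/
noncomputable def SS (G : SimpleGraph V) {K : Type*} [Fintype K] (w : V → K → ℝ)
    (u : Sym2 V → K → ℝ) (b : Sym2 V → ℝ) : ℝ :=
  ∑ s : V → K, (∏ v, w v (s v)) * ∏ e ∈ G.edgeFinset, (dk (u e) (Sym2.map s e) + b e)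

theorem SS_eq (G : SimpleGraph V) {K : Type*} [Fintype K] (w : V → K → ℝ)
    (u : Sym2 V → K → ℝ) (b : Sym2 V → ℝ) :
    SS G w u b = ∑ F ∈ G.edgeFinset.powerset,
      (∏ e ∈ G.edgeFinset \ F, b e) * clw w u F := by
  unfold SS
  have h1 : ∀ s : V → K, (∏ v, w v (s v)) * ∏ e ∈ G.edgeFinset, (dk (u e) (Sym2.map s e) + b e) =
      ∑ F ∈ G.edgeFinset.powerset, (∏ e ∈ G.edgeFinset \ F, b e) *
        ((∏ v, w v (s v)) * ∏ e ∈ F, dk (u e) (Sym2.map s e)) := by
    intro s
    rw [prod_add, mul_sum]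
    refine sum_congr rfl fun F _ => ?_
    ring
  simp only [h1]
  rw [sum_comm]
  refine sum_congr rfl fun F hF => ?_
  rw [← mul_sum, cluster (G := G)]
  intro e he
  exact SimpleGraph.mem_edgeFinset.1 (mem_powerset.1 hF he)

/-! ## Two labellings -/

/-- `m` interchangeable colours (value `x`) and one special colour (value `y`) -/
noncomputable def vO {X : Type*} (m : ℕ) (x y : X → ℝ) : X → Option (Fin m) → ℝ :=
  fun v k => k.elim (y v) (fun _ => x v)

/-- one weighted colour (value `c x`) and one special colour (value `y`) -/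
noncomputable def vB {X : Type*} (c : ℝ) (x y : X → ℝ) : X → Bool → ℝ :=
  fun v k => if k = true then c * x v else y v

section
variable (m : ℕ) (w1 w2 : V → ℝ) (u1 u2 : Sym2 V → ℝ)

/-- the weight of a component with a colour -/
noncomputable def a1 (w1 : V → ℝ) (u1 : Sym2 V → ℝ) (F : Finset (Sym2 V))
    (C : (HF F).ConnectedComponent) : ℝ :=
  (∏ v ∈ univ.filter (fun v => (HF F).connectedComponentMk v = C), w1 v) *
    ∏ e ∈ F.filter (fun e => kE (HF F) e = C), u1 e

theorem sum_vO (C : (HF F).ConnectedComponent) :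
    ∑ k, cw (vO m w1 w2) (vO m u1 u2) F C k = m * a1 w1 u1 F C + a1 w2 u2 F C := by
  rw [Fintype.sum_option]
  unfold cw vO a1
  simp only [Option.elim_none, Option.elim_some]
  rw [sum_const, card_univ, Fintype.card_fin, nsmul_eq_mul]
  ring

theorem sum_vB (C : (HF F).ConnectedComponent) :
    ∑ k, cw (vB m w1 w2) (vB (1 / m) u1 u2) F C k =
      (m : ℝ) ^ nV (HF F) C * (1 / (m : ℝ)) ^ nE (HF F) F C * a1 w1 u1 F C + a1 w2 u2 F C := by
  rw [Fintype.sum_bool]
  unfold cw vB a1 nV nE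
  simp only [if_true, if_false, Bool.false_eq_true]
  rw [prod_mul_distrib, prod_mul_distrib, prod_const, prod_const]
  ring

end

theorem pow_cancel (m : ℕ) (hm : 1 ≤ m) (e : ℕ) : (m : ℝ) ^ (e + 1) * (1 / (m : ℝ)) ^ e = m := by
  have h1 : (1 : ℝ) ≤ m := by exact_mod_cast hm
  rw [pow_succ', mul_assoc, ← mul_pow, mul_one_div_cancel (by linarith), one_pow, mul_one]

theorem fac_le (m : ℕ) (hm : 1 ≤ m) (n e : ℕ) (h : n ≤ e + 1) :
    (m : ℝ) ^ n * (1 / (m : ℝ)) ^ e ≤ m := by
  have h1 : (1 : ℝ) ≤ m := by exact_mod_cast hm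
  have h3 : (m : ℝ) ^ n ≤ (m : ℝ) ^ (e + 1) := pow_le_pow_right₀ h1 h
  have h4 : 0 ≤ (1 / (m : ℝ)) ^ e := by positivity
  have h6 := mul_le_mul_of_nonneg_right h3 h4
  rw [pow_cancel m hm] at h6
  exact h6

/-- hypotheses on the weights: nonnegative, and the special colour dominates -/
structure WH (w1 w2 : V → ℝ) (u1 u2 : Sym2 V → ℝ) (b : Sym2 V → ℝ) : Prop where
  w0 : ∀ v, 0 ≤ w1 v
  w12 : ∀ v, w1 v ≤ w2 v
  u0 : ∀ e, 0 ≤ u1 e
  u12 : ∀ e, u1 e ≤ u2 e
  b0 : ∀ e, 0 ≤ b e

variable {w1 w2 : V → ℝ} {u1 u2 : Sym2 V → ℝ} {b : Sym2 V → ℝ}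

theorem WH.a1_nonneg (h : WH w1 w2 u1 u2 b) (C : (HF F).ConnectedComponent) :
    0 ≤ a1 w1 u1 F C :=
  mul_nonneg (prod_nonneg fun v _ => h.w0 v) (prod_nonneg fun e _ => h.u0 e)

theorem WH.a1_le (h : WH w1 w2 u1 u2 b) (C : (HF F).ConnectedComponent) :
    a1 w1 u1 F C ≤ a1 w2 u2 F C := by
  unfold a1
  refine mul_le_mul (prod_le_prod (fun v _ => h.w0 v) fun v _ => h.w12 v)
    (prod_le_prod (fun e _ => h.u0 e) fun e _ => h.u12 e) (prod_nonneg fun e _ => h.u0 e)
    (prod_nonneg fun v _ => (h.w0 v).trans (h.w12 v))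

theorem clw_le (hF : ∀ e ∈ F, e ∈ G.edgeSet) (m : ℕ) (hm : 1 ≤ m) (h : WH w1 w2 u1 u2 b) :
    clw (vB m w1 w2) (vB (1 / m) u1 u2) F ≤ clw (vO m w1 w2) (vO m u1 u2) F := by
  unfold clw
  refine prod_le_prod (fun C _ => ?_) (fun C _ => ?_)
  · rw [sum_vB]
    have h1 := h.a1_nonneg C
    have h2 := h1.trans (h.a1_le C)
    positivity
  · rw [sum_vB, sum_vO]
    have h1 := mul_le_mul_of_nonneg_right (fac_le m hm _ _ (nV_le hF C)) (h.a1_nonneg C)
    linarith

theorem le_clw (hF : ∀ e ∈ F, e ∈ G.edgeSet) (m : ℕ) (hm : 1 ≤ m) (h : WH w1 w2 u1 u2 b) (g : ℕ)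
    (hg0 : 0 < g) (hg : (g : ℕ∞) ≤ G.egirth) :
    clw (vO m w1 w2) (vO m u1 u2) F ≤
      ((m : ℝ) + 1) ^ (Fintype.card V / g) * clw (vB m w1 w2) (vB (1 / m) u1 u2) F := by
  have h1 : (1 : ℝ) ≤ m := by exact_mod_cast hm
  have hpos : ∀ C : (HF F).ConnectedComponent,
      0 ≤ ∑ k, cw (vB m w1 w2) (vB (1 / m) u1 u2) F C k := by
    intro C
    rw [sum_vB]
    have h1 := h.a1_nonneg C
    have h2 := h1.trans (h.a1_le C)
    positivity
  set cyc := univ.filter (fun C : (HF F).ConnectedComponent => nV _ C ≠ nE _ F C + 1) with hcyc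
  have h2 : clw (vO m w1 w2) (vO m u1 u2) F ≤
      (∏ C : (HF F).ConnectedComponent, if nV _ C ≠ nE _ F C + 1 then (m : ℝ) + 1 else 1) *
        clw (vB m w1 w2) (vB (1 / m) u1 u2) F := by
    unfold clw
    rw [← prod_mul_distrib]
    refine prod_le_prod (fun C _ => ?_) (fun C _ => ?_)
    · rw [sum_vO]
      have h3 := h.a1_nonneg C
      have h4 := h3.trans (h.a1_le C)
      positivity
    · rw [sum_vO, sum_vB]
      have h3 := h.a1_nonneg C
      have h4 := h.a1_le C
      by_cases hc : nV _ C ≠ nE _ F C + 1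
      · rw [if_pos hc]
        have h5 : 0 ≤ (m : ℝ) ^ nV (HF F) C * (1 / (m : ℝ)) ^ nE (HF F) F C * a1 w1 u1 F C := by
          positivity
        nlinarith
      · rw [if_neg hc, one_mul]
        rw [not_ne_iff] at hc
        rw [hc, pow_cancel m hm]
  refine h2.trans (mul_le_mul_of_nonneg_right ?_ ?_)
  · rw [← prod_filter, prod_const]
    refine pow_le_pow_right₀ (by linarith) ?_
    rw [Nat.le_div_iff_mul_le hg0]
    have h3 : cyc.card * g ≤ ∑ C ∈ cyc, nV (HF F) C := by
      rw [← smul_eq_mul, ← sum_const]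
      exact sum_le_sum fun C hC => girth_le hF g hg C (mem_filter.1 hC).2
    have h4 : ∑ C ∈ cyc, nV (HF F) C ≤ ∑ C : (HF F).ConnectedComponent, nV (HF F) C :=
      sum_le_sum_of_subset (subset_univ _)
    rw [sum_nV] at h4
    exact h3.trans h4
  · unfold clw
    exact prod_nonneg fun C _ => hpos C

theorem SS_le (G : SimpleGraph V) (m : ℕ) (hm : 1 ≤ m) (h : WH w1 w2 u1 u2 b) :
    SS G (vB m w1 w2) (vB (1 / m) u1 u2) b ≤ SS G (vO m w1 w2) (vO m u1 u2) b := by
  rw [SS_eq, SS_eq]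
  refine sum_le_sum fun F hF => mul_le_mul_of_nonneg_left (clw_le (G := G) (b := b) ?_ m hm h) ?_
  · intro e he
    exact SimpleGraph.mem_edgeFinset.1 (mem_powerset.1 hF he)
  · exact prod_nonneg fun e _ => h.b0 e

theorem le_SS (G : SimpleGraph V) (m : ℕ) (hm : 1 ≤ m) (h : WH w1 w2 u1 u2 b) (g : ℕ)
    (hg0 : 0 < g) (hg : (g : ℕ∞) ≤ G.egirth) :
    SS G (vO m w1 w2) (vO m u1 u2) b ≤
      ((m : ℝ) + 1) ^ (Fintype.card V / g) * SS G (vB m w1 w2) (vB (1 / m) u1 u2) b := by
  rw [SS_eq, SS_eq, mul_sum]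
  refine sum_le_sum fun F hF => ?_
  have hF' : ∀ e ∈ F, e ∈ G.edgeSet := by
    intro e he
    exact SimpleGraph.mem_edgeFinset.1 (mem_powerset.1 hF he)
  have h1 := le_clw hF' m hm h g hg0 hg
  have h2 : 0 ≤ ∏ e ∈ G.edgeFinset \ F, b e := prod_nonneg fun e _ => h.b0 e
  calc _ ≤ (∏ e ∈ G.edgeFinset \ F, b e) * (((m : ℝ) + 1) ^ (Fintype.card V / g) *
        clw (vB m w1 w2) (vB (1 / m) u1 u2) F) := mul_le_mul_of_nonneg_left h1 h2
    _ = _ := by ring

end Pool.Agent.W_5dd92e_h6
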